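import Pool.Agent.Y126.SH.Main

/-!
# There are no isotropic stable subspaces
-/

set_option autoImplicit false

namespace Pool.Agent.X292.PS

open Module Polynomial Matrix Pool.Agent.Y800 Pool.Agent.Y126.SH

section core

variable {n : ℕ} {S : Finset ℕ} {w : ℕ} {T : IntegralSystem n} {ℓ : ℕ} [hℓ : Fact ℓ.Prime]
  {k : Type} [Field k] (φ : ℤ_[ℓ] →+* k)

theorem form_inv {J : Matrix (Fin n) (Fin n) ℤ_[ℓ]}
    (hinv : ∀ g : GQ, (chi ℓ g : ℤ_[ℓ]) ^ w •
      ((T.rho ℓ g : Matrix (Fin n) (Fin n) ℤ_[ℓ]).transpose * J * (T.rho ℓ g)) = J) (g : GQ)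
    (x y : Fin n → k) :
    Matrix.toBilin' (J.map φ) (lin (rep φ T) g x) (lin (rep φ T) g y) =
      ((φ (chi ℓ g : ℤ_[ℓ])) ^ w)⁻¹ * Matrix.toBilin' (J.map φ) x y := by
  have hchi : ∀ g, φ (chi ℓ g : ℤ_[ℓ]) ≠ 0 := fun g => (chik φ g).ne_zero
  have h1 := congrArg (fun X => Matrix.map X φ) (hinv g)
  have h2 : (φ (chi ℓ g : ℤ_[ℓ])) ^ w • ((rep φ T g : Matrix (Fin n) (Fin n) k).transpose *
      J.map φ * (rep φ T g : Matrix (Fin n) (Fin n) k)) = J.map φ := by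
    refine Eq.trans ?_ h1
    have h3 : ∀ (c : ℤ_[ℓ]) (X : Matrix (Fin n) (Fin n) ℤ_[ℓ]), (c • X).map φ = φ c • X.map φ := by
      intro c X
      ext i j
      simp
    show _ = ((chi ℓ g : ℤ_[ℓ]) ^ w •
      ((T.rho ℓ g : Matrix (Fin n) (Fin n) ℤ_[ℓ]).transpose * J * (T.rho ℓ g))).map φ
    rw [h3, map_pow, Matrix.map_mul, Matrix.map_mul, rep_val, Matrix.transpose_map]
  have h4 : Matrix.toBilin' (J.map φ) (lin (rep φ T) g x) (lin (rep φ T) g y) = Matrix.toBilin'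
      ((rep φ T g : Matrix (Fin n) (Fin n) k).transpose * J.map φ *
        (rep φ T g : Matrix (Fin n) (Fin n) k)) x y := by
    rw [← Matrix.toBilin'_comp]
    rfl
  rw [h4, eq_inv_mul_iff_mul_eq₀ (pow_ne_zero _ (hchi g))]
  conv_rhs => rw [← h2, map_smul]
  rfl

/-- stable isotropic subspaces are zero -/
theorem iso_core (hT : T.IsPure S w) {c : ℕ}
    (hw : WeightsAt (rep φ T) (fun g => φ (chi ℓ g : ℤ_[ℓ])) ℓ c) (hmink : Mink φ T)
    {J : Matrix (Fin n) (Fin n) ℤ_[ℓ]} (hJ : φ J.det ≠ 0)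
    (hinv : ∀ g : GQ, (chi ℓ g : ℤ_[ℓ]) ^ w •
      ((T.rho ℓ g : Matrix (Fin n) (Fin n) ℤ_[ℓ]).transpose * J * (T.rho ℓ g)) = J)
    {p : ℕ} (hp : p.Prime) (hpS : p ∉ S) (hpℓ : ℓ ≠ p) {M : ℤ} (hMk : (M : k) ≠ 0)
    (hM : ∀ (Ω : Type) [Field Ω] [IsAlgClosed Ω], (M : Ω) ≠ 0 →
      ∀ (A : Multiset Ω) (a : ℕ), a ≤ c →
        A + A.map (fun z => ((p ^ w : ℕ) : Ω) / z) ≤ ((T.poly p).map (Int.castRingHom Ω)).roots →
        A.prod = (p : Ω) ^ a → A ≠ 0 →
        ∃ A' : Multiset ℂ, A' ≠ 0 ∧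
          A' + A'.map (fun z => ((p ^ w : ℕ) : ℂ) / z) ≤ (T.poly p).aroots ℂ ∧
          A'.prod ^ 2 = ((p ^ w : ℕ) : ℂ) ^ Multiset.card A')
    (hrel : NoIsotropicRelation (T.poly p) (p ^ w))
    (U : Submodule k (Fin n → k)) (hU : IsStable (rep φ T) U)
    (hiso : ∀ x ∈ U, ∀ y ∈ U, Matrix.toBilin' (J.map φ) x y = 0) : U = ⊥ := by
  classical
  let B := Matrix.toBilin' (J.map φ)
  have hB : ∀ g x y, B (lin (rep φ T) g x) (lin (rep φ T) g y) =
      ((φ (chi ℓ g : ℤ_[ℓ])) ^ w)⁻¹ * B x y := form_inv φ hinv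
  by_contra hU0
  obtain ⟨a, hac, ha⟩ := weights_sub hw U hU
  have hdet := hmink U hU a (by
    intro P hP τ hτ
    obtain ⟨q, hq, hqP⟩ := exists_prime_mem hP
    by_cases hqℓ : ℓ = q
    · subst hqℓ
      exact ha P hP hqP τ hτ
    · rw [det_inertia φ hT hU hq hqℓ hP hqP hτ, chi_inertia hq hqℓ hP hqP hτ, Units.val_one,
        map_one, one_pow, mul_one])
  obtain ⟨P, σ, hP, hpP, hσ⟩ := exists_geom hp
  have hchip : φ (chi ℓ σ : ℤ_[ℓ]) * (p : k) = 1 := by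
    have h1 := congrArg φ (chi_frob hp hpℓ hP hpP hσ)
    rwa [map_mul, map_natCast, map_one] at h1
  have hpk : (p : k) ≠ 0 := right_ne_zero_of_mul_eq_one hchip
  have hs : ((φ (chi ℓ σ : ℤ_[ℓ])) ^ w)⁻¹ = ((p ^ w : ℕ) : k) := by
    rw [inv_eq_iff_eq_inv, Nat.cast_pow, ← inv_pow]
    congr 1
    exact eq_inv_of_mul_eq_one_left hchip
  have hs0 : ((p ^ w : ℕ) : k) ≠ 0 := by
    rw [Nat.cast_pow]; exact pow_ne_zero _ hpk
  have hBσ : ∀ x y, B (lin (rep φ T) σ x) (lin (rep φ T) σ y) = ((p ^ w : ℕ) : k) * B x y := by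
    intro x y
    rw [hB, hs]
  have hnd : B.Nondegenerate := by
    apply LinearMap.BilinForm.nondegenerate_toBilin'_of_det_ne_zero'
    have : (J.map φ).det = φ J.det := (RingHom.map_det φ J).symm
    rwa [this]
  have hUσ : U ≤ U.comap (lin (rep φ T) σ) := fun u hu => hU σ u hu
  obtain ⟨h1, h2, h3⟩ := roots_isotropic (Ω := AlgebraicClosure k) hnd hs0 hBσ hUσ (by
    intro y hy x hx
    exact hiso x hx y hy)
  have hdσ : LinearMap.det ((lin (rep φ T) σ).restrict hUσ) = (p : k) ^ a := by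
    have h4 := hdet σ
    have h5 : detOn (rep φ T) U hU σ = LinearMap.det ((lin (rep φ T) σ).restrict hUσ) := rfl
    rw [h5] at h4
    calc LinearMap.det ((lin (rep φ T) σ).restrict hUσ)
        = LinearMap.det ((lin (rep φ T) σ).restrict hUσ) *
          (φ (chi ℓ σ : ℤ_[ℓ]) * (p : k)) ^ a := by rw [hchip, one_pow, mul_one]
      _ = (LinearMap.det ((lin (rep φ T) σ).restrict hUσ) * φ (chi ℓ σ : ℤ_[ℓ]) ^ a) *
          (p : k) ^ a := by rw [mul_pow]; ring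
      _ = (p : k) ^ a := by rw [h4, one_mul]
  have hchar : (lin (rep φ T) σ).charpoly = (T.poly p).map (Int.castRingHom k) := by
    have h4 := hT.frobenius p hp hpS ℓ hpℓ P hP hpP σ hσ
    have h5 : (lin (rep φ T) σ).charpoly = (rep φ T σ : Matrix (Fin n) (Fin n) k).charpoly := by
      rw [← LinearMap.charpoly_toMatrix _ (Pi.basisFun k (Fin n))]
      congr 1
      exact LinearMap.toMatrix'_toLin' _
    rw [h5, rep_val, Matrix.charpoly_map, h4, Polynomial.map_map]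
    congr 1
    exact RingHom.ext_int _ _
  have hroots : (lin (rep φ T) σ).charpoly.aroots (AlgebraicClosure k) =
      ((T.poly p).map (Int.castRingHom (AlgebraicClosure k))).roots := by
    rw [hchar, aroots_def, Polynomial.map_map]
    congr 2
  rw [hroots, map_natCast] at h1
  rw [hdσ, map_pow, map_natCast] at h2
  have hMΩ : (M : AlgebraicClosure k) ≠ 0 := by
    rw [← map_intCast (algebraMap k (AlgebraicClosure k))]
    exact (_root_.map_ne_zero _).2 hMk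
  obtain ⟨A', hA0, hA1, hA2⟩ := hM (AlgebraicClosure k) hMΩ _ a hac h1 h2 (by
    intro h0
    rw [h0, Multiset.card_zero] at h3
    exact hU0 (Submodule.finrank_eq_zero.1 h3.symm))
  exact hrel A' hA0 hA1 hA2

end core

section inst

variable {n : ℕ} {S : Finset ℕ} {w : ℕ} {T : IntegralSystem n}

/-- the rational representations have no stable isotropic subspaces -/
theorem rat_iso {ℓ : ℕ} [hℓ : Fact ℓ.Prime] (hT : T.IsPure S w)
    {J : Matrix (Fin n) (Fin n) ℤ_[ℓ]} (hJ : J.det ≠ 0)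
    (hinv : ∀ g : GQ, (chi ℓ g : ℤ_[ℓ]) ^ w •
      ((T.rho ℓ g : Matrix (Fin n) (Fin n) ℤ_[ℓ]).transpose * J * (T.rho ℓ g)) = J)
    {r : ℕ} (hr : r.Prime) (hrS : r ∉ S) (hℓr : ℓ ≠ r)
    (hrel : NoIsotropicRelation (T.poly r) (r ^ w))
    (U : Submodule ℚ_[ℓ] (Fin n → ℚ_[ℓ])) (hU : IsStable (T.rat ℓ) U)
    (hiso : ∀ x ∈ U, ∀ y ∈ U, Matrix.toBilin' (J.map (algebraMap ℤ_[ℓ] ℚ_[ℓ])) x y = 0) :
    U = ⊥ := by
  obtain ⟨c, hc⟩ := hT.weights ℓ
  have hJ' : algebraMap ℤ_[ℓ] ℚ_[ℓ] J.det ≠ 0 := by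
    intro h0
    exact hJ ((map_eq_zero_iff _ (IsFractionRing.injective ℤ_[ℓ] ℚ_[ℓ])).1 h0)
  obtain ⟨M, hM0, hM⟩ := rel_transfer (hT.monic r hr hrS) hr.one_lt (hT.pure r hr hrS) c
  exact iso_core (algebraMap ℤ_[ℓ] ℚ_[ℓ]) hT hc (mink_rat hT) hJ' hinv hr hrS hℓr
    (M := M) (by exact_mod_cast hM0) hM hrel U hU hiso

/-- almost all residual representations have no stable isotropic subspaces, for perfect forms -/
theorem res_iso (hT : T.IsPure S w) {p : ℕ} (hp : p.Prime) (hpS : p ∉ S)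
    (hrel : NoIsotropicRelation (T.poly p) (p ^ w)) : ∃ N : ℕ, ∀ (ℓ : ℕ) [Fact ℓ.Prime], N < ℓ →
      ∀ J : Matrix (Fin n) (Fin n) ℤ_[ℓ], IsUnit J.det →
      (∀ g : GQ, (chi ℓ g : ℤ_[ℓ]) ^ w •
        ((T.rho ℓ g : Matrix (Fin n) (Fin n) ℤ_[ℓ]).transpose * J * (T.rho ℓ g)) = J) →
      ∀ U : Submodule (ZMod ℓ) (Fin n → ZMod ℓ), IsStable (T.res ℓ) U →
        (∀ x ∈ U, ∀ y ∈ U, Matrix.toBilin' (J.map (PadicInt.toZMod (p := ℓ))) x y = 0) →
        U = ⊥ := by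
  obtain ⟨N₂, hN₂⟩ := hT.residualWeights
  obtain ⟨M, hM0, hM⟩ := rel_transfer (hT.monic p hp hpS) hp.one_lt (hT.pure p hp hpS) (w * n)
  refine ⟨max N₂ (max p M.natAbs), ?_⟩
  intro ℓ hℓ hlt J hJu hinv U hU hiso
  simp only [max_lt_iff] at hlt
  obtain ⟨h2, h4, h5⟩ := hlt
  refine iso_core (PadicInt.toZMod (p := ℓ)) hT (hN₂ ℓ h2) (mink_res hT)
    (hJu.map (PadicInt.toZMod (p := ℓ))).ne_zero hinv hp hpS (by omega)
    (M := M) ?_ hM hrel U hU hiso
  intro h0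
  rw [ZMod.intCast_zmod_eq_zero_iff_dvd] at h0
  have h6 := Int.le_of_dvd (by positivity : (0 : ℤ) < |M|) ((dvd_abs _ _).2 h0)
  rw [Int.abs_eq_natAbs] at h6
  omega

end inst

/-- Every endomorphism of the representation `ρ` is multiplication by a scalar. -/
def TrivialEndomorphisms {k : Type} [Field k] {n : ℕ} (ρ : GQ →* GL (Fin n) k) : Prop :=
  ∀ X : Matrix (Fin n) (Fin n) k, (∀ g : GQ, (ρ g : Matrix (Fin n) (Fin n) k) * X = X * ρ g) →
    ∃ c : k, X = c • (1 : Matrix (Fin n) (Fin n) k)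

section irr

variable {k : Type} [Field k] {n : ℕ}

/-- no stable isotropic subspaces and trivial endomorphisms: irreducible -/
theorem irr_of (ρ : GQ →* GL (Fin n) k) (c : GQ → k) {J : Matrix (Fin n) (Fin n) k}
    (hsym : J.transpose = J ∨ J.transpose = -J)
    (hinv : ∀ g x y, Matrix.toBilin' J (lin ρ g x) (lin ρ g y) = c g * Matrix.toBilin' J x y)
    (hno : ∀ U : Submodule k (Fin n → k), IsStable ρ U →
      (∀ x ∈ U, ∀ y ∈ U, Matrix.toBilin' J x y = 0) → U = ⊥)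
    (hend : TrivialEndomorphisms ρ) (U : Submodule k (Fin n → k)) (hU : IsStable ρ U) :
    U = ⊥ ∨ U = ⊤ := by
  have hrefl : (Matrix.toBilin' J).IsRefl := by
    intro x y hxy
    have h1 : Matrix.toBilin' J y x = Matrix.toBilin' J.transpose x y := by
      rw [Matrix.toBilin'_apply', Matrix.toBilin'_apply', Matrix.mulVec_transpose,
        dotProduct_comm x, Matrix.dotProduct_mulVec]
    rw [h1]
    rcases hsym with h | h
    · rw [h, hxy]
    · rw [h, map_neg, LinearMap.neg_apply, LinearMap.neg_apply, hxy, neg_zero]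
  obtain ⟨hc, hst⟩ := Pool.Agent.Y142.isCompl_of_no_isotropic (lin ρ) c hrefl hinv (by
    intro W hW hiso
    apply hno W (fun g u hu => hW g hu)
    intro x hx y hy
    exact hiso hy x hx) U (fun g u hu => hU g u hu)
  set U' := (Matrix.toBilin' J).orthogonal U with hU'
  -- the projection to `U` along `U'`
  let P : (Fin n → k) →ₗ[k] (Fin n → k) := U.subtype ∘ₗ U.projectionOnto U' hc
  have hP1 : ∀ x ∈ U, P x = x := by
    intro x hx
    show ((U.projectionOnto U' hc x : U) : Fin n → k) = x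
    exact congrArg Subtype.val (Submodule.projectionOnto_apply_left hc ⟨x, hx⟩)
  have hP2 : ∀ x ∈ U', P x = 0 := by
    intro x hx
    show ((U.projectionOnto U' hc x : U) : Fin n → k) = 0
    rw [Submodule.projectionOnto_apply_right hc ⟨x, hx⟩]
    rfl
  have hdec : ∀ x : Fin n → k, ∃ a ∈ U, ∃ b ∈ U', a + b = x := by
    intro x
    have h1 : x ∈ U ⊔ U' := by rw [hc.sup_eq_top]; trivial
    exact Submodule.mem_sup.1 h1
  have hcomm : ∀ g x, P (lin ρ g x) = lin ρ g (P x) := by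
    intro g x
    obtain ⟨a, ha, b, hb, rfl⟩ := hdec x
    have ha' : lin ρ g a ∈ U := hU g a ha
    have hb' : lin ρ g b ∈ U' := hst g hb
    rw [map_add, map_add, hP1 _ ha', hP2 _ hb', map_add, hP1 _ ha, hP2 _ hb, add_zero, add_zero]
  obtain ⟨s, hs⟩ := hend (LinearMap.toMatrix' P) (by
    intro g
    apply Matrix.toLin'.injective
    rw [Matrix.toLin'_mul, Matrix.toLin'_mul, Matrix.toLin'_toMatrix']
    apply LinearMap.ext
    intro x
    exact (hcomm g x).symm)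
  have hP3 : ∀ x, P x = s • x := by
    intro x
    have h1 : P = Matrix.toLin' (LinearMap.toMatrix' P) := (Matrix.toLin'_toMatrix' P).symm
    rw [h1, hs, map_smul, Matrix.toLin'_one]
    rfl
  by_cases hs0 : s = 0
  · left
    rw [Submodule.eq_bot_iff]
    intro x hx
    rw [← hP1 x hx, hP3, hs0, zero_smul]
  · right
    rw [Submodule.eq_top_iff']
    intro x
    have h1 : s • x ∈ U := by
      rw [← hP3]
      exact (U.projectionOnto U' hc x).2
    have h2 := U.smul_mem s⁻¹ h1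
    rwa [smul_smul, inv_mul_cancel₀ hs0, one_smul] at h2

end irr

end Pool.Agent.X292.PS
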