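import Pool.Agent.X292.PS.Iso
import Pool.Agent.Y126.MD.Defs

/-!
# Finiteness of the polarized systems with trivial endomorphisms
-/

set_option autoImplicit false

namespace Pool.Agent.X292.PS

open Module Matrix Polynomial Pool.Agent.Y800 Pool.Agent.Y126.SH
  Pool.Agent.Y126.SH.IntegralSystem

/-- The class of the theorem: the polarizations are perfect for the primes `ℓ > N` in `Λ`; for `ℓ` in
`Λ` the endomorphisms of `V_ℓ` are scalars, and `V_ℓ` is irreducible or some good prime `p ≠ ℓ` has no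
isotropic relation; some good prime `p` has no isotropic relation. -/
structure IsGeneric {n : ℕ} (S : Finset ℕ) (w N : ℕ) (Λ : Set ℕ) (T : IntegralSystem n) : Prop where
  perfect : ∀ (ℓ : ℕ) [Fact ℓ.Prime], ℓ ∈ Λ → T.PolarizedAt w N ℓ
  endomorphisms : ∀ (ℓ : ℕ) [Fact ℓ.Prime], ℓ ∈ Λ → TrivialEndomorphisms (T.rat ℓ)
  irreducible : ∀ (ℓ : ℕ) [Fact ℓ.Prime], ℓ ∈ Λ →
    (∀ U : Submodule ℚ_[ℓ] (Fin n → ℚ_[ℓ]), IsStable (T.rat ℓ) U → U = ⊥ ∨ U = ⊤) ∨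
    ∃ p : ℕ, p.Prime ∧ p ∉ S ∧ p ≠ ℓ ∧ NoIsotropicRelation (T.poly p) (p ^ w)
  prime : ∃ p : ℕ, p.Prime ∧ p ∉ S ∧ NoIsotropicRelation (T.poly p) (p ^ w)

variable {n : ℕ} {S : Finset ℕ} {w N : ℕ} {Λ : Set ℕ} {T T0 : IntegralSystem n}

theorem rat_irr (hT : T.IsPure S w) (hG : IsGeneric S w N Λ T) {ℓ : ℕ} [Fact ℓ.Prime] (hℓ : ℓ ∈ Λ)
    (U : Submodule ℚ_[ℓ] (Fin n → ℚ_[ℓ])) (hU : IsStable (T.rat ℓ) U) : U = ⊥ ∨ U = ⊤ := by
  rcases hG.irreducible ℓ hℓ with h | ⟨p, hp, hpS, hpℓ, hrel⟩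
  · exact h U hU
  · obtain ⟨J, hJ, -, hsym, hinv⟩ := hG.perfect ℓ hℓ
    refine irr_of (T.rat ℓ) (fun g => ((algebraMap ℤ_[ℓ] ℚ_[ℓ] (chi ℓ g : ℤ_[ℓ])) ^ w)⁻¹)
      (J := J.map (algebraMap ℤ_[ℓ] ℚ_[ℓ])) ?_ (form_inv (algebraMap ℤ_[ℓ] ℚ_[ℓ]) hinv) ?_
      (hG.endomorphisms ℓ hℓ) U hU
    · rcases hsym with h | h
      · left; rw [← Matrix.transpose_map, h]
      · right
        rw [← Matrix.transpose_map, h]
        ext i j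
        simp
    · intro W hW hiso
      exact rat_iso hT hJ hinv hp hpS (Ne.symm hpℓ) hrel W hW hiso

theorem exists_B (hn : 0 < n) {ℓ : ℕ} [Fact ℓ.Prime]
    (h0 : ∀ U : Submodule ℚ_[ℓ] (Fin n → ℚ_[ℓ]), IsStable (T0.rat ℓ) U → U = ⊥ ∨ U = ⊤)
    (h1 : ∀ U : Submodule ℚ_[ℓ] (Fin n → ℚ_[ℓ]), IsStable (T.rat ℓ) U → U = ⊥ ∨ U = ⊤)
    (htr : ∀ g, (T.rat ℓ g : Matrix (Fin n) (Fin n) ℚ_[ℓ]).trace =
      (T0.rat ℓ g : Matrix (Fin n) (Fin n) ℚ_[ℓ]).trace) :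
    ∃ B : Matrix (Fin n) (Fin n) ℤ_[ℓ], (∃ i j, IsUnit (B i j)) ∧
      ∀ g, (T0.rho ℓ g : Matrix (Fin n) (Fin n) ℤ_[ℓ]) * B = B * T.rho ℓ g := by
  obtain ⟨A, hA⟩ := bn (T.rat ℓ) (T0.rat ℓ) hn
    (fun m h1 _ => Nat.cast_ne_zero.2 (by omega))
    (fun W hW => h1 W hW) (fun W hW => h0 W hW) htr
  exact exists_primitive hn A hA

theorem local_code (ℓ : ℕ) (h0 : ∀ [Fact ℓ.Prime], ℓ ∈ Λ →
      ∀ U : Submodule ℚ_[ℓ] (Fin n → ℚ_[ℓ]), IsStable (T0.rat ℓ) U → U = ⊥ ∨ U = ⊤) :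
    ∃ (k : ℕ) (c : IntegralSystem n → ℕ), (∀ T, c T < k) ∧
      ∀ [Fact ℓ.Prime], ℓ ∈ Λ → ∀ (T T' : IntegralSystem n),
        (∃ B : Matrix (Fin n) (Fin n) ℤ_[ℓ], (∃ i j, IsUnit (B i j)) ∧
          ∀ g, (T0.rho ℓ g : Matrix (Fin n) (Fin n) ℤ_[ℓ]) * B = B * T.rho ℓ g) →
        (∃ B : Matrix (Fin n) (Fin n) ℤ_[ℓ], (∃ i j, IsUnit (B i j)) ∧
          ∀ g, (T0.rho ℓ g : Matrix (Fin n) (Fin n) ℤ_[ℓ]) * B = B * T'.rho ℓ g) →
        c T = c T' → ∃ A : GL (Fin n) ℤ_[ℓ], ∀ g, T'.rho ℓ g = A * T.rho ℓ g * A⁻¹ := by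
  classical
  by_cases hℓ : ℓ.Prime ∧ ℓ ∈ Λ
  · have hF : Fact ℓ.Prime := ⟨hℓ.1⟩
    obtain ⟨m, hm⟩ := lat_bound (T0.rho ℓ) (fun U hU => h0 hℓ.2 U hU)
    have hne : NeZero (ℓ ^ m) := ⟨pow_ne_zero _ hℓ.1.ne_zero⟩
    obtain ⟨k, ⟨e⟩⟩ := Finite.exists_equiv_fin (Fin n → Fin n → ZMod (ℓ ^ m))
    refine ⟨k, fun T => if h : ∃ B : Matrix (Fin n) (Fin n) ℤ_[ℓ], (∃ i j, IsUnit (B i j)) ∧
        ∀ g, (T0.rho ℓ g : Matrix (Fin n) (Fin n) ℤ_[ℓ]) * B = B * T.rho ℓ g then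
          (e (fun i j => PadicInt.toZModPow m (h.choose i j)) : ℕ) else 0, ?_, ?_⟩
    · intro T
      dsimp only
      split_ifs with h
      · exact Fin.is_lt _
      · exact lt_of_le_of_lt (Nat.zero_le _) (e (fun _ _ => 0)).is_lt
    · intro _ _ T T' h h' hc
      dsimp only at hc
      rw [dif_pos h, dif_pos h'] at hc
      have h1 := e.injective (Fin.ext hc)
      exact lat_congr hm h.choose_spec.1 h'.choose_spec.1 h.choose_spec.2 h'.choose_spec.2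
        (fun i j => congrFun (congrFun h1 i) j)
  · exact ⟨1, fun _ => 0, fun _ => Nat.one_pos, fun {hF} h => (hℓ ⟨hF.out, h⟩).elim⟩

/-- For a perfect form, a primitive intertwiner is invertible. -/
theorem inv_of_perfect (hn : 0 < n) {ℓ : ℕ} [hF : Fact ℓ.Prime]
    {J0 J B : Matrix (Fin n) (Fin n) ℤ_[ℓ]} (hJ : IsUnit J.det)
    (hinv0 : ∀ g : GQ, (chi ℓ g : ℤ_[ℓ]) ^ w •
      ((T0.rho ℓ g : Matrix (Fin n) (Fin n) ℤ_[ℓ]).transpose * J0 * (T0.rho ℓ g)) = J0)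
    (hinv : ∀ g : GQ, (chi ℓ g : ℤ_[ℓ]) ^ w •
      ((T.rho ℓ g : Matrix (Fin n) (Fin n) ℤ_[ℓ]).transpose * J * (T.rho ℓ g)) = J)
    (hend : TrivialEndomorphisms (T.rat ℓ))
    (hno : ∀ U : Submodule (ZMod ℓ) (Fin n → ZMod ℓ), IsStable (T0.res ℓ) U →
        (∀ x ∈ U, ∀ y ∈ U, Matrix.toBilin' (J0.map (PadicInt.toZMod (p := ℓ))) x y = 0) → U = ⊥)
    (hB : ∃ i j, IsUnit (B i j))
    (h₁ : ∀ g, (T0.rho ℓ g : Matrix (Fin n) (Fin n) ℤ_[ℓ]) * B = B * T.rho ℓ g) :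
    ∃ A : GL (Fin n) ℤ_[ℓ], ∀ g, T.rho ℓ g = A * T0.rho ℓ g * A⁻¹ := by
  classical
  -- the form `Bᵀ J0 B` is a multiple of `J`
  set G : Matrix (Fin n) (Fin n) ℤ_[ℓ] := B.transpose * J0 * B with hG
  have hGinv : ∀ g : GQ, (chi ℓ g : ℤ_[ℓ]) ^ w •
      ((T.rho ℓ g : Matrix (Fin n) (Fin n) ℤ_[ℓ]).transpose * G * (T.rho ℓ g)) = G := by
    intro g
    have h2 : (T.rho ℓ g : Matrix (Fin n) (Fin n) ℤ_[ℓ]).transpose * G * (T.rho ℓ g) =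
        B.transpose * ((T0.rho ℓ g : Matrix (Fin n) (Fin n) ℤ_[ℓ]).transpose * J0 *
          (T0.rho ℓ g)) * B := by
      have h3 : (T.rho ℓ g : Matrix (Fin n) (Fin n) ℤ_[ℓ]).transpose * B.transpose =
          B.transpose * (T0.rho ℓ g : Matrix (Fin n) (Fin n) ℤ_[ℓ]).transpose := by
        rw [← Matrix.transpose_mul, ← Matrix.transpose_mul, h₁]
      rw [hG]
      calc (T.rho ℓ g : Matrix (Fin n) (Fin n) ℤ_[ℓ]).transpose * (B.transpose * J0 * B) *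
            (T.rho ℓ g)
          = ((T.rho ℓ g : Matrix (Fin n) (Fin n) ℤ_[ℓ]).transpose * B.transpose) * J0 *
            (B * (T.rho ℓ g)) := by simp only [Matrix.mul_assoc]
        _ = _ := by rw [h3, ← h₁]; simp only [Matrix.mul_assoc]
    rw [h2]
    have h4 : (chi ℓ g : ℤ_[ℓ]) ^ w • (B.transpose * ((T0.rho ℓ g : Matrix (Fin n) (Fin n)
        ℤ_[ℓ]).transpose * J0 * (T0.rho ℓ g)) * B) = B.transpose * ((chi ℓ g : ℤ_[ℓ]) ^ w •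
          ((T0.rho ℓ g : Matrix (Fin n) (Fin n) ℤ_[ℓ]).transpose * J0 * (T0.rho ℓ g))) * B := by
      rw [Matrix.mul_smul, Matrix.smul_mul]
    rw [h4, hinv0]
  have hcomm : ∀ g : GQ, (T.rho ℓ g : Matrix (Fin n) (Fin n) ℤ_[ℓ]) * (J⁻¹ * G) =
      (J⁻¹ * G) * (T.rho ℓ g) := by
    intro g
    have hu : IsUnit ((chi ℓ g : ℤ_[ℓ]) ^ w) := (Units.isUnit (chi ℓ g)).pow w
    set r : Matrix (Fin n) (Fin n) ℤ_[ℓ] := (T.rho ℓ g : Matrix (Fin n) (Fin n) ℤ_[ℓ]) with hr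
    set c : ℤ_[ℓ] := (chi ℓ g : ℤ_[ℓ]) ^ w with hc
    have e1 : c • (r.transpose * J * r) = J := hinv g
    have e2 : c • (r.transpose * G * r) = G := hGinv g
    have hJJ : J * J⁻¹ = 1 := Matrix.mul_nonsing_inv J hJ
    -- `c rᵀ J (r X - X r) = 0`
    have e3 : (c • (r.transpose * J)) * (r * (J⁻¹ * G)) = (c • (r.transpose * J)) * ((J⁻¹ * G) * r) := by
      have l1 : (c • (r.transpose * J)) * (r * (J⁻¹ * G)) = G := by
        rw [← Matrix.mul_assoc, Matrix.smul_mul, e1, ← Matrix.mul_assoc, hJJ, Matrix.one_mul]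
      have l2 : (c • (r.transpose * J)) * ((J⁻¹ * G) * r) = G := by
        rw [Matrix.smul_mul]
        have : r.transpose * J * (J⁻¹ * G * r) = r.transpose * (J * J⁻¹) * G * r := by
          simp only [Matrix.mul_assoc]
        rw [this, hJJ, Matrix.mul_one, e2]
      rw [l1, l2]
    have hru : IsUnit r := (T.rho ℓ g).isUnit
    have hcJ : IsUnit (c • (r.transpose * J)) := by
      have h5 : IsUnit (r.transpose * J).det := by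
        rw [Matrix.det_mul, Matrix.det_transpose]
        exact ((Matrix.isUnit_iff_isUnit_det _).1 hru).mul hJ
      rw [Matrix.isUnit_iff_isUnit_det, Matrix.det_smul]
      exact (hu.pow _).mul h5
    exact hcJ.mul_left_cancel e3
  obtain ⟨s, hs⟩ := hend ((J⁻¹ * G).map (algebraMap ℤ_[ℓ] ℚ_[ℓ])) (by
    intro g
    have h2 : (algebraMap ℤ_[ℓ] ℚ_[ℓ]).mapMatrix ((T.rho ℓ g : Matrix (Fin n) (Fin n) ℤ_[ℓ]) *
        (J⁻¹ * G)) = (algebraMap ℤ_[ℓ] ℚ_[ℓ]).mapMatrix ((J⁻¹ * G) *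
          (T.rho ℓ g : Matrix (Fin n) (Fin n) ℤ_[ℓ])) := by
      rw [hcomm g]
    rw [map_mul, map_mul _ (J⁻¹ * G) _] at h2
    exact h2)
  obtain ⟨t, ht⟩ : ∃ t : ℤ_[ℓ], J⁻¹ * G = t • (1 : Matrix (Fin n) (Fin n) ℤ_[ℓ]) := by
    refine ⟨(J⁻¹ * G) ⟨0, hn⟩ ⟨0, hn⟩, ?_⟩
    apply Matrix.map_injective (f := algebraMap ℤ_[ℓ] ℚ_[ℓ]) (IsFractionRing.injective ℤ_[ℓ] ℚ_[ℓ])
    have h2 : algebraMap ℤ_[ℓ] ℚ_[ℓ] ((J⁻¹ * G) ⟨0, hn⟩ ⟨0, hn⟩) = s := by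
      have h3 := congrFun (congrFun hs ⟨0, hn⟩) ⟨0, hn⟩
      rw [Matrix.map_apply, Matrix.smul_apply, Matrix.one_apply_eq, smul_eq_mul, mul_one] at h3
      exact h3
    show (J⁻¹ * G).map (algebraMap ℤ_[ℓ] ℚ_[ℓ]) = ((J⁻¹ * G) ⟨0, hn⟩ ⟨0, hn⟩ •
      (1 : Matrix (Fin n) (Fin n) ℤ_[ℓ])).map (algebraMap ℤ_[ℓ] ℚ_[ℓ])
    rw [hs]
    ext i j
    rw [Matrix.smul_apply, Matrix.map_apply, Matrix.smul_apply, smul_eq_mul, smul_eq_mul, map_mul,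
      h2, Matrix.one_apply, Matrix.one_apply]
    split_ifs <;> simp
  have hGJ : G = t • J := by
    have h2 : J * (J⁻¹ * G) = J * (t • (1 : Matrix (Fin n) (Fin n) ℤ_[ℓ])) := by rw [ht]
    rwa [← Matrix.mul_assoc, Matrix.mul_nonsing_inv J hJ, Matrix.one_mul, Matrix.mul_smul,
      Matrix.mul_one] at h2
  -- `t` is a unit
  let φ : ℤ_[ℓ] →+* ZMod ℓ := PadicInt.toZMod
  have htu : IsUnit t := by
    by_contra htn
    have h3 : t ∈ IsLocalRing.maximalIdeal ℤ_[ℓ] := (IsLocalRing.mem_maximalIdeal _).2 htn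
    rw [← PadicInt.ker_toZMod, RingHom.mem_ker] at h3
    have h4 : (B.map φ).transpose * J0.map φ * B.map φ = 0 := by
      have h5 : φ.mapMatrix G = φ.mapMatrix (t • J) := by rw [hGJ]
      have h6 : φ.mapMatrix (t • J) = 0 := by
        ext i j
        rw [RingHom.mapMatrix_apply, Matrix.map_apply, Matrix.smul_apply, smul_eq_mul, map_mul]
        show PadicInt.toZMod t * _ = 0
        rw [h3, zero_mul]
      rw [h6, hG, map_mul, map_mul] at h5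
      rw [← Matrix.transpose_map]
      exact h5
    have h2 : ∀ g, (T0.res ℓ g : Matrix (Fin n) (Fin n) (ZMod ℓ)) * B.map φ =
        B.map φ * (T.res ℓ g : Matrix (Fin n) (Fin n) (ZMod ℓ)) := by
      intro g
      have h3 := congrArg (fun X : Matrix (Fin n) (Fin n) ℤ_[ℓ] => φ.mapMatrix X) (h₁ g)
      simp only [map_mul] at h3
      exact h3
    have h5 := hno (LinearMap.range (Matrix.toLin' (B.map φ))) (by
      rintro g _ ⟨x, rfl⟩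
      refine ⟨(T.res ℓ g : Matrix (Fin n) (Fin n) (ZMod ℓ)).mulVec x, ?_⟩
      rw [Matrix.toLin'_apply, Matrix.toLin'_apply, Matrix.mulVec_mulVec, Matrix.mulVec_mulVec, h2])
      (by
        rintro _ ⟨x, rfl⟩ _ ⟨y, rfl⟩
        have h6 : Matrix.toBilin' (J0.map φ) (Matrix.toLin' (B.map φ) x)
            (Matrix.toLin' (B.map φ) y) =
            Matrix.toBilin' ((B.map φ).transpose * J0.map φ * B.map φ) x y := by
          rw [← Matrix.toBilin'_comp]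
          rfl
        show Matrix.toBilin' (J0.map φ) (Matrix.toLin' (B.map φ) x)
            (Matrix.toLin' (B.map φ) y) = 0
        rw [h6, h4, map_zero]
        rfl)
    obtain ⟨i, j, hij⟩ := hB
    have h7 : Matrix.toLin' (B.map φ) (Pi.single j 1) ∈ LinearMap.range (Matrix.toLin' (B.map φ)) :=
      ⟨_, rfl⟩
    rw [h5, Submodule.mem_bot, Matrix.toLin'_apply, Matrix.mulVec_single_one] at h7
    have h8 : φ (B i j) = 0 := congrFun h7 i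
    exact (hij.map φ).ne_zero h8
  have hdet : IsUnit B.det := by
    have h2 : IsUnit G.det := by
      rw [hGJ, Matrix.det_smul]
      exact (htu.pow _).mul hJ
    rw [hG, Matrix.det_mul, Matrix.det_mul] at h2
    exact isUnit_of_mul_isUnit_right h2
  obtain ⟨A, hA⟩ := (Matrix.isUnit_iff_isUnit_det B).2 hdet
  refine ⟨A⁻¹, fun g => ?_⟩
  apply Units.ext
  rw [inv_inv, Units.val_mul, Units.val_mul, Matrix.mul_assoc, hA, h₁, ← hA, ← Matrix.mul_assoc,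
    ← Units.val_mul, inv_mul_cancel, Units.val_one, Matrix.one_mul]

/-- **Finiteness.** -/
theorem finiteness (n w : ℕ) (hn : 0 < n) (S : Finset ℕ) (N : ℕ) (Λ : Set ℕ) :
    ∃ (m : ℕ) (T : Fin m → IntegralSystem n),
      (∀ i, (T i).IsPure S w ∧ IsGeneric S w N Λ (T i)) ∧
      ∀ T' : IntegralSystem n, (T'.IsPure S w ∧ IsGeneric S w N Λ T') →
        ∃ i, IsomorphicOn Λ (T i) T' := by
  classical
  obtain ⟨𝒯, h𝒯, hdet⟩ := traces_of_finite hn S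
  refine exists_reps (fun T : IntegralSystem n => T.IsPure S w ∧ IsGeneric S w N Λ T)
    (fun T T' => IsomorphicOn Λ T T') (fun T => fun p : 𝒯 => (T.poly p).coeff (n - 1)) ?_ ?_
  · refine (Set.Finite.pi' (t := fun p : 𝒯 => Set.Icc
      (-(((p : ℕ) ^ w) ^ n * n.choose (n / 2) : ℕ) : ℤ) ((((p : ℕ) ^ w) ^ n * n.choose (n / 2) : ℕ) : ℤ))
      (fun p => Set.finite_Icc _ _)).subset ?_
    rintro _ ⟨T, hT, rfl⟩ p
    exact abs_le.1 (coeff_bound hT.1 (h𝒯 p p.2).1 (h𝒯 p p.2).2 (n - 1))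
  · rintro T0 ⟨hT0, hR0⟩
    obtain ⟨p, hp, hpS, hrel⟩ := hR0.prime
    obtain ⟨N', hN'⟩ := res_iso hT0 hp hpS hrel
    have hirr0 : ∀ (ℓ : ℕ) [Fact ℓ.Prime], ℓ ∈ Λ →
        ∀ U : Submodule ℚ_[ℓ] (Fin n → ℚ_[ℓ]), IsStable (T0.rat ℓ) U → U = ⊥ ∨ U = ⊤ :=
      fun ℓ _ hℓ U hU => rat_irr hT0 hR0 hℓ U hU
    choose k c hk hc using fun ℓ => local_code (Λ := Λ) (T0 := T0) ℓ (fun h U hU => hirr0 ℓ h U hU)
    obtain ⟨K, ⟨e⟩⟩ := Finite.exists_equiv_fin (∀ ℓ : Fin (max N N' + 1), Fin (k ℓ))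
    refine ⟨K, fun T => (e fun ℓ => ⟨c ℓ T, hk ℓ T⟩ : ℕ), fun T => Fin.is_lt _, ?_⟩
    rintro T T' ⟨hT, hR⟩ ⟨hT', hR'⟩ hi hi' hcode ℓ hℓ hℓΛ
    have h1 := exists_B hn (hirr0 ℓ hℓΛ) (fun U hU => rat_irr hT hR hℓΛ U hU)
      (hdet w w T T0 hT hT0 (fun p hp => congrFun hi ⟨p, hp⟩) ℓ)
    have h2 := exists_B hn (hirr0 ℓ hℓΛ) (fun U hU => rat_irr hT' hR' hℓΛ U hU)
      (hdet w w T' T0 hT' hT0 (fun p hp => congrFun hi' ⟨p, hp⟩) ℓ)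
    by_cases hℓN : ℓ ≤ max N N'
    · have h3 := e.injective (Fin.ext hcode)
      have h4 := congrFun h3 ⟨ℓ, Nat.lt_succ_of_le hℓN⟩
      exact hc ℓ hℓΛ T T' h1 h2 (congrArg Fin.val h4)
    · push Not at hℓN
      obtain ⟨hlt1, hlt2⟩ := max_lt_iff.1 hℓN
      obtain ⟨B, hB, hB'⟩ := h1
      obtain ⟨B', hB1, hB1'⟩ := h2
      obtain ⟨J0, -, hJ0, -, hinv0⟩ := hR0.perfect ℓ hℓΛ
      obtain ⟨J, -, hJ, -, hinv⟩ := hR.perfect ℓ hℓΛ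
      obtain ⟨J', -, hJ', -, hinv'⟩ := hR'.perfect ℓ hℓΛ
      have hno := hN' ℓ hlt2 J0 (hJ0 hlt1) hinv0
      obtain ⟨A, hA⟩ := inv_of_perfect hn (hJ hlt1) hinv0 hinv
        (hR.endomorphisms ℓ hℓΛ) hno hB hB'
      obtain ⟨A', hA'⟩ := inv_of_perfect hn (hJ' hlt1) hinv0 hinv'
        (hR'.endomorphisms ℓ hℓΛ) hno hB1 hB1'
      refine ⟨A' * A⁻¹, fun g => ?_⟩
      rw [hA, hA']
      group

end Pool.Agent.X292.PS
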